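import Pool.Agent.ISO.StmtsR

/-!
# Squad ISO, row CNJ: conjugation by the power of a unit
-/

set_option autoImplicit false

namespace Pool.Agent.ISO.R.H5

open Finset Pool.Agent.Helper6_Mono Pool.Agent.Helper32_OMP Pool.Agent.ISO
open Pool.Agent.ISO.R

theorem opB_sum {σ : Type} [Fintype σ] {G : MvPolynomial σ ℂ} {W d : ℕ}
    (h1 : OpB W d G (fun _ => 0))
    (h2 : ∀ Ψ Ψ', OpB W d G Ψ → OpB W d G Ψ' → OpB W d G (fun n => Ψ n + Ψ' n))
    {ι : Type} (s : Finset ι) (Φ : ι → ℕ → MvPowerSeries σ ℂ) (h : ∀ j ∈ s, OpB W d G (Φ j)) :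
    OpB W d G (fun n => ∑ j ∈ s, Φ j n) := by
  classical
  induction s using Finset.induction_on with
  | empty => simpa using h1
  | insert a s ha ih =>
    have h3 := h2 _ _ (h a (Finset.mem_insert_self _ _))
      (ih fun j hj => h j (Finset.mem_insert_of_mem hj))
    simpa [Finset.sum_insert ha] using h3

/-- **CNJ** -/
theorem cnj (hvec : VecStmt) (hopa : OpaStmt) : CnjStmt := by
  intro σ _ p φ e f G hco he hfe w
  obtain ⟨c, hc⟩ := hvec σ p φ hco
  obtain ⟨h1, h2, h3, h4, h5, h6⟩ := hopa σ G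
  have hee : e * e⁻¹ = 1 := MvPowerSeries.mul_inv_cancel e he
  induction w with
  | nil =>
    refine ⟨fun n => (G : MvPowerSeries σ ℂ) ^ (n + 1), h5, fun n => ?_⟩
    have h : dWord ([] : List σ) (f ^ (n + 1)) = f ^ (n + 1) := rfl
    rw [h, map_pow, hfe, mul_pow]
  | cons i v ih =>
    obtain ⟨Ψ, hΨ, hΨe⟩ := ih
    refine ⟨fun n => ∑ j, (c i j * MvPowerSeries.pderiv ℂ j (Ψ n) +
      (((n : MvPowerSeries σ ℂ) + 1) * (c i j * e⁻¹ * MvPowerSeries.pderiv ℂ j e)) * Ψ n),
      ?_, fun n => ?_⟩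
    · rw [List.length_cons]
      refine opB_sum (h1 _ _) (fun Ψ Ψ' => h2 _ _ Ψ Ψ') Finset.univ _ fun j _ => ?_
      have hA : OpB (v.length + 1) (v.length + 1) G
          (fun n => c i j * MvPowerSeries.pderiv ℂ j (Ψ n)) := by
        have a1 := h3 _ _ 0 _ (Polynomial.C (c i j)) (by simp) (h4 _ _ _ j hΨ)
        have a2 := h6 _ (v.length + 1) _ (v.length + 1) _ le_rfl (by omega) a1
        simpa only [Polynomial.eval_C] using a2
      have hB : OpB (v.length + 1) (v.length + 1) G
          (fun n => (((n : MvPowerSeries σ ℂ) + 1) *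
            (c i j * e⁻¹ * MvPowerSeries.pderiv ℂ j e)) * Ψ n) := by
        have hdeg : ((Polynomial.X + 1) * Polynomial.C
            (c i j * e⁻¹ * MvPowerSeries.pderiv ℂ j e) :
              Polynomial (MvPowerSeries σ ℂ)).natDegree ≤ 1 := by
          refine (Polynomial.natDegree_mul_C_le _ _).trans ?_
          have h7 : (Polynomial.X + 1 : Polynomial (MvPowerSeries σ ℂ)) =
              Polynomial.X + Polynomial.C 1 := by simp
          rw [h7, Polynomial.natDegree_X_add_C]
        have a1 := h3 _ _ 1 _ _ hdeg hΨ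
        have a2 := h6 _ (v.length + 1) _ (v.length + 1) _ (by omega) le_rfl a1
        simpa only [Polynomial.eval_mul, Polynomial.eval_add, Polynomial.eval_X,
          Polynomial.eval_one, Polynomial.eval_C] using a2
      exact h2 _ _ _ _ hA hB
    · have h : dWord (i :: v) (f ^ (n + 1)) =
          MvPolynomial.pderiv i (dWord v (f ^ (n + 1))) := rfl
      rw [h, ← hc i, hΨe n, Finset.mul_sum]
      refine Finset.sum_congr rfl fun j _ => ?_
      rw [Derivation.leibniz, Derivation.leibniz_pow]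
      simp only [smul_eq_mul, nsmul_eq_mul, Nat.add_sub_cancel, Nat.cast_add, Nat.cast_one]
      have hpow : e ^ n = e ^ (n + 1) * e⁻¹ := by
        rw [pow_succ, mul_assoc, hee, mul_one]
      rw [hpow]
      ring

end Pool.Agent.ISO.R.H5
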